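import Mathlib

set_option autoImplicit false

/-!
# Counting for the addition matrix of a set of integers
-/

namespace Pool.Agent.N472.SM

open Finset

/-- The number of ordered pairs `(a, b) ∈ A × A` with `a + b = n`. -/
noncomputable def rep (A : Set ℕ) (n : ℕ) : ℕ :=
  {p : ℕ × ℕ | p.1 ∈ A ∧ p.2 ∈ A ∧ p.1 + p.2 = n}.ncard

open Classical in
/-- the elements below `N` -/
noncomputable def F (A : Set ℕ) (N : ℕ) : Finset ℕ := (range N).filter fun a => a ∈ A

theorem mem_F {A : Set ℕ} {N a : ℕ} : a ∈ F A N ↔ a < N ∧ a ∈ A := by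
  classical
  unfold F
  rw [mem_filter, mem_range]

theorem rep_finite (A : Set ℕ) (n : ℕ) :
    {p : ℕ × ℕ | p.1 ∈ A ∧ p.2 ∈ A ∧ p.1 + p.2 = n}.Finite := by
  refine ((Finset.range (n + 1) ×ˢ Finset.range (n + 1)).finite_toSet).subset ?_
  rintro ⟨a, b⟩ ⟨-, -, h⟩
  simp only at h
  simp only [coe_product, coe_range, Set.mem_prod, Set.mem_Iio]
  omega

theorem card_le_rep (A : Set ℕ) (n : ℕ) (T : Finset (ℕ × ℕ))
    (hT : ∀ p ∈ T, p.1 ∈ A ∧ p.2 ∈ A ∧ p.1 + p.2 = n) : T.card ≤ rep A n := by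
  unfold rep
  rw [← Set.ncard_coe_finset]
  exact Set.ncard_le_ncard (fun p hp => hT p (by simpa using hp)) (rep_finite A n)

theorem F_sq (A : Set ℕ) (R : ℕ) (hR : ∀ n, rep A n ≤ R) (N : ℕ) :
    (F A N).card ^ 2 ≤ R * (2 * N) := by
  have h1 := card_le_mul_card_image_of_maps_to (s := F A N ×ˢ F A N) (t := range (2 * N))
    (f := fun p : ℕ × ℕ => p.1 + p.2) (fun p hp => by
      rw [mem_product, mem_F, mem_F] at hp
      rw [mem_range]
      omega) R (fun n _ => by
      refine (card_le_rep A n _ ?_).trans (hR n)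
      intro p hp
      rw [mem_filter, mem_product, mem_F, mem_F] at hp
      exact ⟨hp.1.1.2, hp.1.2.2, hp.2⟩)
  rw [card_product, card_range, ← sq] at h1
  exact h1

open Classical in
/-- the addition matrix -/
noncomputable def B (A : Set ℕ) (N : ℕ) : Matrix (Fin N) (Fin N) ℝ :=
  fun x y => if x ≠ y ∧ (x : ℕ) + y ∈ A then 1 else 0

theorem B_01 (A : Set ℕ) (N : ℕ) (x y : Fin N) : B A N x y = 0 ∨ B A N x y = 1 := by
  unfold B
  split_ifs <;> simp

theorem B_symm (A : Set ℕ) (N : ℕ) (x y : Fin N) : B A N x y = B A N y x := by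
  classical
  unfold B
  have h : (x ≠ y ∧ (x : ℕ) + y ∈ A) ↔ (y ≠ x ∧ (y : ℕ) + x ∈ A) := by
    rw [ne_comm, add_comm]
  by_cases h1 : x ≠ y ∧ (x : ℕ) + y ∈ A
  · rw [if_pos h1, if_pos (h.1 h1)]
  · rw [if_neg h1, if_neg (fun h2 => h1 (h.2 h2))]

theorem B_ne {A : Set ℕ} {N : ℕ} {x y : Fin N} (h : B A N x y ≠ 0) : x ≠ y ∧ (x : ℕ) + y ∈ A := by
  unfold B at h
  by_contra hn
  rw [if_neg hn] at h
  exact h rfl

theorem B_row (A : Set ℕ) (N : ℕ) (x : Fin N) : ∑ y, B A N x y ≤ (F A (2 * N)).card := by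
  classical
  unfold B
  rw [Finset.sum_boole]
  have h : (univ.filter fun y : Fin N => x ≠ y ∧ (x : ℕ) + y ∈ A).card ≤ (F A (2 * N)).card := by
    refine card_le_card_of_injOn (fun y : Fin N => (x : ℕ) + y) ?_ ?_
    · intro y hy
      have h1 := (mem_filter.1 hy).2.2
      have h2 : (x : ℕ) + y < 2 * N := by omega
      exact mem_F.2 ⟨h2, h1⟩
    · intro y _ y' _ h
      simp only at h
      exact Fin.ext (by omega)
  exact_mod_cast h

theorem B_four (A : Set ℕ) (R : ℕ) (hR : ∀ n, rep A n ≤ R) (N : ℕ) (x : Fin N) :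
    (B A N ^ 4) x x ≤ R * ((F A (2 * N)).card : ℝ) ^ 2 := by
  classical
  have h1 : (B A N ^ 4) x x = ∑ y, ∑ z, ∑ z', B A N x z * B A N z y * (B A N y z' * B A N z' x) := by
    have h2 : B A N ^ 4 = (B A N * B A N) * (B A N * B A N) := by
      rw [← sq (B A N), ← pow_add]
    rw [h2, Matrix.mul_apply]
    refine Finset.sum_congr rfl fun y _ => ?_
    rw [Matrix.mul_apply, Matrix.mul_apply, Finset.sum_mul_sum]
  rw [h1]
  set T : Finset (Fin N × Fin N × Fin N) := univ.filter fun t =>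
    (x : ℕ) + t.2.1 ∈ A ∧ (t.2.1 : ℕ) + t.1 ∈ A ∧ (t.1 : ℕ) + t.2.2 ∈ A ∧ (t.2.2 : ℕ) + x ∈ A
    with hT
  have h2 : ∑ y, ∑ z, ∑ z', B A N x z * B A N z y * (B A N y z' * B A N z' x) ≤
      (T.card : ℝ) := by
    calc ∑ y, ∑ z, ∑ z', B A N x z * B A N z y * (B A N y z' * B A N z' x)
        = ∑ t : Fin N × Fin N × Fin N, B A N x t.2.1 * B A N t.2.1 t.1 *
            (B A N t.1 t.2.2 * B A N t.2.2 x) := by
          rw [Fintype.sum_prod_type]
          refine Finset.sum_congr rfl fun y _ => ?_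
          rw [Fintype.sum_prod_type]
      _ ≤ ∑ t : Fin N × Fin N × Fin N, if ((x : ℕ) + t.2.1 ∈ A ∧ (t.2.1 : ℕ) + t.1 ∈ A ∧
            (t.1 : ℕ) + t.2.2 ∈ A ∧ (t.2.2 : ℕ) + x ∈ A) then (1 : ℝ) else 0 := by
          refine Finset.sum_le_sum fun t _ => ?_
          have e1 := B_01 A N x t.2.1
          have e2 := B_01 A N t.2.1 t.1
          have e3 := B_01 A N t.1 t.2.2
          have e4 := B_01 A N t.2.2 x
          split_ifs with hc
          · rcases e1 with e1 | e1 <;> rcases e2 with e2 | e2 <;> rcases e3 with e3 | e3 <;>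
              rcases e4 with e4 | e4 <;> rw [e1, e2, e3, e4] <;> norm_num
          · by_cases f1 : B A N x t.2.1 = 0
            · rw [f1]; norm_num
            by_cases f2 : B A N t.2.1 t.1 = 0
            · rw [f2]; norm_num
            by_cases f3 : B A N t.1 t.2.2 = 0
            · rw [f3]; norm_num
            by_cases f4 : B A N t.2.2 x = 0
            · rw [f4]; norm_num
            exact absurd ⟨(B_ne f1).2, (B_ne f2).2, (B_ne f3).2, (B_ne f4).2⟩ hc
      _ = (T.card : ℝ) := by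
          rw [hT, Finset.sum_boole]
  refine h2.trans ?_
  have h3 : T.card ≤ R * (F A (2 * N) ×ˢ F A (2 * N)).card := by
    refine card_le_mul_card_image_of_maps_to
      (f := fun t : Fin N × Fin N × Fin N => ((x : ℕ) + t.2.1, (t.1 : ℕ) + t.2.2)) ?_ R ?_
    · rintro ⟨y, z, z'⟩ ht
      have h4 := (mem_filter.1 ht).2
      simp only at h4
      rw [mem_product, mem_F, mem_F]
      exact ⟨⟨by simp only; omega, h4.1⟩, ⟨by simp only; omega, h4.2.2.1⟩⟩
    · rintro ⟨a, b⟩ -
      refine le_trans ?_ (hR (a + b))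
      rw [← card_image_of_injOn (s := T.filter fun t => ((x : ℕ) + t.2.1, (t.1 : ℕ) + t.2.2) = (a, b))
        (f := fun t : Fin N × Fin N × Fin N => ((t.2.2 : ℕ) + x, (t.2.1 : ℕ) + t.1))]
      · refine card_le_rep A (a + b) _ ?_
        intro p hp
        obtain ⟨⟨y, z, z'⟩, ht, rfl⟩ := mem_image.1 hp
        rw [mem_filter] at ht
        have h4 := (mem_filter.1 ht.1).2
        have h5 := ht.2
        simp only [Prod.mk.injEq] at h4 h5
        refine ⟨h4.2.2.2, h4.2.1, ?_⟩
        simp only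
        omega
      · rintro ⟨y, z, z'⟩ h6 ⟨y', w, w'⟩ h7 h8
        rw [mem_coe, mem_filter] at h6 h7
        have h6' := h6.2
        have h7' := h7.2
        simp only [Prod.mk.injEq] at h6' h7' h8
        have g1 : z = w := Fin.ext (by omega)
        have g2 : z' = w' := Fin.ext (by omega)
        have g3 : y = y' := Fin.ext (by subst g1; omega)
        rw [g1, g2, g3]
  rw [card_product, ← sq] at h3
  exact_mod_cast h3

theorem B_mass (A : Set ℕ) (N M : ℕ) :
    (M : ℝ) * (((F A N).filter (M ≤ ·)).card : ℝ) ≤ ∑ x, ∑ y, B A N x y := by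
  classical
  have h1 : ∑ x, ∑ y, B A N x y = ((univ.filter fun p : Fin N × Fin N =>
      p.1 ≠ p.2 ∧ (p.1 : ℕ) + p.2 ∈ A).card : ℝ) := by
    unfold B
    rw [← Fintype.sum_prod_type' (f := fun x y : Fin N =>
      if x ≠ y ∧ (x : ℕ) + y ∈ A then (1 : ℝ) else 0), Finset.sum_boole]
  rw [h1]
  have h2 : M * ((F A N).filter (M ≤ ·)).card ≤
      (univ.filter fun p : Fin N × Fin N => p.1 ≠ p.2 ∧ (p.1 : ℕ) + p.2 ∈ A).card := by
    have h3 : M * ((F A N).filter (M ≤ ·)).card ≤
        (((F A N).filter (M ≤ ·)).sigma fun a =>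
          (range (a + 1)).filter fun x => x ≠ a - x).card := by
      rw [card_sigma, mul_comm, ← smul_eq_mul, ← Finset.sum_const]
      refine Finset.sum_le_sum fun a ha => ?_
      have ha1 : M ≤ a := (mem_filter.1 ha).2
      have h4 : ((range (a + 1)).filter fun x => x ≠ a - x).card +
          ((range (a + 1)).filter fun x => ¬ x ≠ a - x).card = (range (a + 1)).card :=
        card_filter_add_card_filter_not _
      rw [card_range] at h4
      have h5 : ((range (a + 1)).filter fun x => ¬ x ≠ a - x).card ≤ 1 := by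
        rw [card_le_one]
        intro u hu v hv
        rw [mem_filter, mem_range, not_not] at hu hv
        omega
      omega
    refine h3.trans ?_
    refine card_le_card_of_surjOn (fun p : Fin N × Fin N => (⟨(p.1 : ℕ) + p.2, (p.1 : ℕ)⟩ :
      Σ _ : ℕ, ℕ)) ?_
    rintro ⟨a, x⟩ h
    rw [mem_coe, mem_sigma, mem_filter, mem_filter, mem_F, mem_range] at h
    simp only at h
    obtain ⟨⟨⟨ha, haA⟩, -⟩, hx, hne⟩ := h
    refine ⟨(⟨x, by omega⟩, ⟨a - x, by omega⟩), ?_, ?_⟩
    · rw [mem_coe, mem_filter]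
      refine ⟨mem_univ _, ?_, ?_⟩
      · intro h6
        rw [Fin.mk.injEq] at h6
        exact hne h6
      · simp only
        have : x + (a - x) = a := by omega
        rw [this]
        exact haA
    · simp only
      have : x + (a - x) = a := by omega
      rw [this]
  exact_mod_cast h2

end Pool.Agent.N472.SM
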