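import Pool.Agent.N472.SM.Scale
import Pool.Agent.N472.MC.Fin

set_option autoImplicit false

/-!
# All scales; protocols
-/

namespace Pool.Agent.N472.SM

open Finset Filter Pool.Agent.N472.MC Pool.Agent.N471.CC

theorem count_eq (A : Set ℕ) (N : ℕ) :
    (A ∩ Set.Icc 1 N).ncard = ((F A (N + 1)).filter (1 ≤ ·)).card := by
  classical
  rw [← Set.ncard_coe_finset]
  congr 1
  ext a
  rw [mem_coe, mem_filter, mem_F, Set.mem_inter_iff, Set.mem_Icc]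
  constructor
  · rintro ⟨h1, h2, h3⟩
    exact ⟨⟨by omega, h1⟩, h2⟩
  · rintro ⟨⟨h1, h2⟩, h3⟩
    exact ⟨h2, h3, by omega⟩

/-- **All scales.** -/
theorem finite (R : ℕ) (hR1 : 1 ≤ R) : ∃ C : ℝ, 0 ≤ C ∧ ∀ (A : Set ℕ), (∀ n, rep A n ≤ R) →
    ∀ (N : ℕ) (H : Type) [NormedAddCommGroup H] [InnerProductSpace ℝ H] (p q : Fin (N + 1) → H)
      (a b : ℝ), -1 ≤ b → b < a → a ≤ 1 → (∀ x, ‖p x‖ ≤ 1) → (∀ x, ‖q x‖ ≤ 1) →
      (∀ x y : Fin (N + 1), x ≠ y → (x : ℕ) + y ∈ A → a ≤ inner ℝ (p x) (q y)) →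
      (∀ x y : Fin (N + 1), x ≠ y → (x : ℕ) + y ∉ A → inner ℝ (p x) (q y) ≤ b) →
      ((a - b) * ((A ∩ Set.Icc 1 N).ncard / Real.sqrt N)) ^ 5 * Real.log N ≤ C := by
  classical
  obtain ⟨C, hC0, hC⟩ := scale R hR1
  have hR0 : (0 : ℝ) < R := by exact_mod_cast hR1
  have hR1' : (1 : ℝ) ≤ R := by exact_mod_cast hR1
  have hlR : 0 ≤ Real.log (8 * R ^ 2) := Real.log_nonneg (by nlinarith)
  refine ⟨16 ^ 5 * C + 32 * (32 * R ^ 3 * Real.log (8 * R ^ 2) + 64 * R ^ 2), by positivity, ?_⟩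
  intro A hrep N H _ _ p q a b hb hab ha hp hq hpos hneg
  obtain ⟨f, hf⟩ : ∃ f : ℕ → ℕ, f = fun M => ((F A M).filter (1 ≤ ·)).card := ⟨_, rfl⟩
  have hfle : ∀ M, ((f M : ℕ) : ℝ) ^ 2 ≤ 2 * R * M := by
    intro M
    have h1 : f M ^ 2 ≤ R * (2 * M) := by
      refine le_trans ?_ (F_sq A R hrep M)
      rw [hf]
      exact Nat.pow_le_pow_left (card_filter_le _ _) 2
    have : ((f M ^ 2 : ℕ) : ℝ) ≤ ((R * (2 * M) : ℕ) : ℝ) := by exact_mod_cast h1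
    push_cast at this
    linarith
  obtain ⟨D, hD⟩ : ∃ D, D = (A ∩ Set.Icc 1 N).ncard := ⟨_, rfl⟩
  have hDf : D = f (N + 1) := by rw [hD, hf, count_eq]
  rw [← hD]
  rcases Nat.eq_zero_or_pos D with hD0 | hD0
  · rw [hD0]
    have : ((a - b) * (((0 : ℕ) : ℝ) / Real.sqrt N)) ^ 5 * Real.log N = 0 := by
      norm_num
    rw [this]
    positivity
  have hD0' : (0 : ℝ) < D := by exact_mod_cast hD0
  have hN1 : 1 ≤ N := by
    rcases Nat.eq_zero_or_pos N with h | h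
    · subst h
      have : f (0 + 1) = 0 := by
        rw [hf]
        simp only
        rw [card_eq_zero, eq_empty_iff_forall_notMem]
        intro z hz
        have h1 := (mem_F.1 (mem_filter.1 hz).1).1
        have h2 := (mem_filter.1 hz).2
        omega
      omega
    · exact h
  have hN1' : (1 : ℝ) ≤ N := by exact_mod_cast hN1
  have hN0 : (0 : ℝ) < N := by linarith
  -- the best scale
  obtain ⟨M, hM, hmax⟩ := exists_max_image (Icc 1 (N + 1)) (fun M => (f M : ℝ) ^ 4 / M)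
    ⟨1, mem_Icc.2 ⟨le_rfl, by omega⟩⟩
  rw [mem_Icc] at hM
  have hM0 : (0 : ℝ) < M := by
    have : 0 < M := by omega
    exact_mod_cast this
  have h1 := hmax (N + 1) (mem_Icc.2 ⟨by omega, le_rfl⟩)
  rw [← hDf] at h1
  push_cast at h1
  have hM2 : 2 ≤ M := by
    by_contra hcon
    have hM1 : M = 1 := by omega
    have hf1 : f M = 0 := by
      rw [hM1, hf]
      simp only
      rw [card_eq_zero, eq_empty_iff_forall_notMem]
      intro z hz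
      have h1 := (mem_F.1 (mem_filter.1 hz).1).1
      have h2 := (mem_filter.1 hz).2
      omega
    rw [hf1] at h1
    have h2 : (0 : ℝ) < (D : ℝ) ^ 4 / (N + 1) := by positivity
    have h3 : ((0 : ℕ) : ℝ) ^ 4 / (M : ℝ) = 0 := by norm_num
    rw [h3] at h1
    linarith
  have h2 := hmax ((M + 1) / 2) (mem_Icc.2 ⟨by omega, by omega⟩)
  -- the upper half
  obtain ⟨G, hG⟩ : ∃ G, G = ((F A M).filter ((M + 1) / 2 ≤ ·)).card := ⟨_, rfl⟩
  have hG1 : f M ≤ f ((M + 1) / 2) + G := by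
    rw [hf, hG]
    simp only
    refine le_trans (card_le_card ?_) (card_union_le _ _)
    intro z hz
    rw [mem_filter, mem_F] at hz
    rw [mem_union, mem_filter, mem_filter, mem_F, mem_F]
    by_cases h : z < (M + 1) / 2
    · exact Or.inl ⟨⟨h, hz.1.2⟩, hz.2⟩
    · exact Or.inr ⟨hz.1, by omega⟩
  have hG1' : (f M : ℝ) ≤ f ((M + 1) / 2) + G := by exact_mod_cast hG1
  have hM'0 : (0 : ℝ) < (((M + 1) / 2 : ℕ) : ℝ) := by
    have : 0 < (M + 1) / 2 := by omega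
    exact_mod_cast this
  have hM' : 3 * (((M + 1) / 2 : ℕ) : ℝ) ≤ 2 * M := by
    have : 3 * ((M + 1) / 2) ≤ 2 * M := by omega
    exact_mod_cast this
  have hhalf : 11 * (f ((M + 1) / 2) : ℝ) ≤ 10 * f M := by
    have e1 : (f ((M + 1) / 2) : ℝ) ^ 4 * M ≤ (f M : ℝ) ^ 4 * (((M + 1) / 2 : ℕ) : ℝ) := by
      rw [div_le_div_iff₀ hM'0 hM0] at h2
      exact h2
    have e2 : (f ((M + 1) / 2) : ℝ) ^ 4 * M ≤ (f M : ℝ) ^ 4 * (2 / 3) * M := by
      refine e1.trans ?_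
      have := mul_le_mul_of_nonneg_left hM' (by positivity : (0 : ℝ) ≤ (f M : ℝ) ^ 4)
      linarith
    have e3 := le_of_mul_le_mul_right e2 hM0
    have e4 : (11 * (f ((M + 1) / 2) : ℝ)) ^ 4 ≤ (10 * f M) ^ 4 := by
      rw [mul_pow, mul_pow]
      have : (0 : ℝ) ≤ (f M : ℝ) ^ 4 := by positivity
      linarith
    exact le_of_pow_le_pow_left₀ (n := 4) (by norm_num) (by positivity) e4
  have hG11 : (f M : ℝ) ≤ 11 * G := by linarith
  -- comparison of the densities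
  obtain ⟨s, hs⟩ : ∃ s, s = Real.sqrt N := ⟨_, rfl⟩
  have hs2 : s ^ 2 = N := by rw [hs]; exact Real.sq_sqrt hN0.le
  have hs0 : 0 < s := by rw [hs]; exact Real.sqrt_pos.2 hN0
  obtain ⟨m, hm⟩ : ∃ m, m = Real.sqrt M := ⟨_, rfl⟩
  have hm2 : m ^ 2 = M := by rw [hm]; exact Real.sq_sqrt hM0.le
  have hm0 : 0 < m := by rw [hm]; exact Real.sqrt_pos.2 hM0
  obtain ⟨δ, hδ⟩ : ∃ δ, δ = (D : ℝ) / s := ⟨_, rfl⟩
  have hδ0 : 0 < δ := by rw [hδ]; positivity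
  have hDδ : (D : ℝ) = δ * s := by rw [hδ]; field_simp
  rw [← hs, ← hδ]
  have hMN : (M : ℝ) ≤ 2 * N := by
    have : M ≤ 2 * N := by omega
    exact_mod_cast this
  have hD4 : (D : ℝ) ^ 4 = δ ^ 4 * N ^ 2 := by
    rw [hDδ, mul_pow]
    have : s ^ 4 = (s ^ 2) ^ 2 := by ring
    rw [this, hs2]
  have hlow : δ ^ 4 * N / 2 ≤ (f M : ℝ) ^ 4 / M := by
    refine le_trans ?_ h1
    rw [hD4, le_div_iff₀ (by positivity)]
    have : δ ^ 4 * N / 2 * (N + 1) ≤ δ ^ 4 * N / 2 * (2 * N) :=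
      mul_le_mul_of_nonneg_left (by linarith) (by positivity)
    linarith
  have hlow' : δ ^ 4 * N / 2 * M ≤ (f M : ℝ) ^ 4 := by
    rw [le_div_iff₀ hM0] at hlow
    exact hlow
  have hδG : δ ≤ 16 * (G / m) := by
    have e1 : δ ^ 4 * M ^ 2 ≤ 4 * (f M : ℝ) ^ 4 := by
      have : δ ^ 4 * M * M ≤ δ ^ 4 * M * (2 * N) :=
        mul_le_mul_of_nonneg_left hMN (by positivity)
      nlinarith
    have e2 : (f M : ℝ) ^ 4 ≤ (11 * G) ^ 4 := pow_le_pow_left₀ (by positivity) hG11 _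
    have e3 : (δ * m) ^ 4 ≤ (16 * G) ^ 4 := by
      have e4 : (δ * m) ^ 4 = δ ^ 4 * M ^ 2 := by
        rw [mul_pow]
        have : m ^ 4 = (m ^ 2) ^ 2 := by ring
        rw [this, hm2]
      rw [e4, mul_pow]
      rw [mul_pow] at e2
      have : (0 : ℝ) ≤ (G : ℝ) ^ 4 := by positivity
      linarith
    have e5 : δ * m ≤ 16 * G :=
      le_of_pow_le_pow_left₀ (n := 4) (by norm_num) (by positivity) e3
    rw [← mul_div_assoc, le_div_iff₀ hm0]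
    exact e5
  have hNM : (N : ℝ) ≤ 8 * R ^ 2 * (1 / δ) ^ 4 * M := by
    have e1 : (f M : ℝ) ^ 4 ≤ (2 * R * M) ^ 2 := by
      have : (f M : ℝ) ^ 4 = ((f M : ℝ) ^ 2) ^ 2 := by ring
      rw [this]
      exact pow_le_pow_left₀ (by positivity) (hfle M) 2
    have e2 : δ ^ 4 * N / 2 * M ≤ 4 * R ^ 2 * M * M := by
      refine (hlow'.trans e1).trans (le_of_eq ?_)
      ring
    have e3 := le_of_mul_le_mul_right e2 hM0
    have e4 : (N : ℝ) = (1 / δ) ^ 4 * 2 * (δ ^ 4 * N / 2) := by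
      field_simp
    rw [e4]
    calc (1 / δ) ^ 4 * 2 * (δ ^ 4 * N / 2) ≤ (1 / δ) ^ 4 * 2 * (4 * R ^ 2 * M) :=
          mul_le_mul_of_nonneg_left e3 (by positivity)
      _ = _ := by ring
  have hlog : Real.log N ≤ Real.log (8 * R ^ 2) + 4 * Real.log (1 / δ) + Real.log M := by
    have e1 := Real.log_le_log hN0 hNM
    rw [Real.log_mul (by positivity) (by positivity), Real.log_mul (by positivity) (by positivity),
      Real.log_pow] at e1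
    push_cast at e1
    exact e1
  have hLM : 0 ≤ Real.log M := Real.log_nonneg (by
    have : 1 ≤ M := by omega
    exact_mod_cast this)
  -- the bound at the scale M
  have hle : M ≤ N + 1 := hM.2
  have hsc := hC A hrep M H (fun x => p (Fin.castLE hle x)) (fun x => q (Fin.castLE hle x)) a b hb
    hab ha (fun x => hp _) (fun x => hq _)
    (fun x y hxy h => hpos _ _ (fun h2 => hxy (Fin.castLE_injective hle h2)) h)
    (fun x y hxy h => hneg _ _ (fun h2 => hxy (Fin.castLE_injective hle h2)) h)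
  rw [← hG, ← hm] at hsc
  obtain ⟨ε, hε⟩ : ∃ ε, ε = a - b := ⟨_, rfl⟩
  rw [← hε] at hsc ⊢
  have hε0 : 0 < ε := by rw [hε]; linarith
  have hε2 : ε ≤ 2 := by rw [hε]; linarith
  have i1 : (ε * δ) ^ 5 * Real.log M ≤ 16 ^ 5 * C := by
    calc (ε * δ) ^ 5 * Real.log M ≤ (ε * (16 * (G / m))) ^ 5 * Real.log M := by
          refine mul_le_mul_of_nonneg_right ?_ hLM
          exact pow_le_pow_left₀ (by positivity) (mul_le_mul_of_nonneg_left hδG hε0.le) 5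
      _ = 16 ^ 5 * ((ε * (G / m)) ^ 5 * Real.log M) := by ring
      _ ≤ _ := mul_le_mul_of_nonneg_left hsc (by positivity)
  have hδ2 : δ ^ 2 ≤ 4 * R := by
    rw [hδ, div_pow, hs2, div_le_iff₀ hN0]
    have e1 := hfle (N + 1)
    rw [← hDf] at e1
    push_cast at e1
    have e2 : 2 * (R : ℝ) * (N + 1) ≤ 2 * R * (2 * N) :=
      mul_le_mul_of_nonneg_left (by linarith) (by positivity)
    linarith
  have hδ4 : δ ^ 4 ≤ 16 * (R : ℝ) ^ 2 := by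
    have e1 : (δ ^ 2) ^ 2 ≤ (4 * (R : ℝ)) ^ 2 := pow_le_pow_left₀ (by positivity) hδ2 2
    have e2 : (δ ^ 2) ^ 2 = δ ^ 4 := by ring
    have e3 : (4 * (R : ℝ)) ^ 2 = 16 * (R : ℝ) ^ 2 := by ring
    rw [e2, e3] at e1
    exact e1
  have hδR : δ ≤ 2 * (R : ℝ) := by
    have e0 : (R : ℝ) ≤ R * R := le_mul_of_one_le_left hR0.le hR1'
    have e1 : δ ^ 2 ≤ (2 * (R : ℝ)) ^ 2 := by
      have e3 : (2 * (R : ℝ)) ^ 2 = 4 * (R * R) := by ring
      rw [e3]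
      linarith
    exact le_of_pow_le_pow_left₀ (n := 2) (by norm_num) (by positivity) e1
  have hδ5 : δ ^ 5 ≤ 32 * (R : ℝ) ^ 3 := by
    have e1 : δ ^ 4 * δ ≤ (16 * (R : ℝ) ^ 2) * (2 * R) :=
      mul_le_mul hδ4 hδR hδ0.le (by positivity)
    have e2 : δ ^ 4 * δ = δ ^ 5 := by ring
    have e3 : (16 * (R : ℝ) ^ 2) * (2 * R) = 32 * (R : ℝ) ^ 3 := by ring
    rw [e2, e3] at e1
    exact e1
  have hε5 : ε ^ 5 ≤ 32 := by
    have : ε ^ 5 ≤ 2 ^ 5 := pow_le_pow_left₀ hε0.le hε2 _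
    norm_num at this
    exact this
  have i2 : δ ^ 5 * (4 * Real.log (1 / δ)) ≤ 64 * R ^ 2 := by
    have e1 : δ * Real.log (1 / δ) ≤ 1 := by
      have e2 : Real.log (1 / δ) ≤ 1 / δ := Real.log_le_self (by positivity)
      calc δ * Real.log (1 / δ) ≤ δ * (1 / δ) := mul_le_mul_of_nonneg_left e2 hδ0.le
        _ = 1 := by field_simp
    calc δ ^ 5 * (4 * Real.log (1 / δ)) = 4 * δ ^ 4 * (δ * Real.log (1 / δ)) := by ring
      _ ≤ 4 * δ ^ 4 * 1 := mul_le_mul_of_nonneg_left e1 (by positivity)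
      _ ≤ _ := by linarith
  have i3 : (ε * δ) ^ 5 * (Real.log (8 * R ^ 2) + 4 * Real.log (1 / δ)) ≤
      32 * (32 * R ^ 3 * Real.log (8 * R ^ 2) + 64 * R ^ 2) := by
    have e1 : δ ^ 5 * (Real.log (8 * R ^ 2) + 4 * Real.log (1 / δ)) ≤
        32 * R ^ 3 * Real.log (8 * R ^ 2) + 64 * R ^ 2 := by
      have := mul_le_mul_of_nonneg_right hδ5 hlR
      linarith
    have e2 : (0 : ℝ) ≤ 32 * R ^ 3 * Real.log (8 * R ^ 2) + 64 * R ^ 2 := by positivity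
    calc (ε * δ) ^ 5 * (Real.log (8 * R ^ 2) + 4 * Real.log (1 / δ))
        = ε ^ 5 * (δ ^ 5 * (Real.log (8 * R ^ 2) + 4 * Real.log (1 / δ))) := by ring
      _ ≤ ε ^ 5 * (32 * R ^ 3 * Real.log (8 * R ^ 2) + 64 * R ^ 2) :=
          mul_le_mul_of_nonneg_left e1 (by positivity)
      _ ≤ _ := mul_le_mul_of_nonneg_right hε5 e2
  calc (ε * δ) ^ 5 * Real.log N
      ≤ (ε * δ) ^ 5 * (Real.log (8 * R ^ 2) + 4 * Real.log (1 / δ) + Real.log M) :=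
        mul_le_mul_of_nonneg_left hlog (by positivity)
    _ = (ε * δ) ^ 5 * (Real.log (8 * R ^ 2) + 4 * Real.log (1 / δ)) +
        (ε * δ) ^ 5 * Real.log M := by ring
    _ ≤ _ := by linarith

/-- The addition matrix `[x + y ∈ A]`, `x ≠ y ≤ N`, has margin at least `ε`. -/
def HasMargin (A : Set ℕ) (N : ℕ) (ε : ℝ) : Prop :=
  ∃ (H : Type) (_ : NormedAddCommGroup H) (_ : InnerProductSpace ℝ H) (u v : Fin (N + 1) → H)
    (a b : ℝ), -1 ≤ b ∧ b + ε ≤ a ∧ a ≤ 1 ∧ (∀ x, ‖u x‖ ≤ 1) ∧ (∀ x, ‖v x‖ ≤ 1) ∧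
    (∀ x y : Fin (N + 1), x ≠ y → (x : ℕ) + y ∈ A → a ≤ inner ℝ (u x) (v y)) ∧
    (∀ x y : Fin (N + 1), x ≠ y → (x : ℕ) + y ∉ A → inner ℝ (u x) (v y) ≤ b)

/-- the sum graph of `A` on `{0, ..., N}` -/
def sumGraph (A : Set ℕ) (N : ℕ) : SimpleGraph (Fin (N + 1)) where
  Adj x y := x ≠ y ∧ (x : ℕ) + y ∈ A
  symm := ⟨fun x y h => ⟨h.1.symm, by rw [add_comm]; exact h.2⟩⟩
  loopless := ⟨fun x h => h.1 rfl⟩

theorem decides_margin (A : Set ℕ) (N c : ℕ) (h : Decides (sumGraph A N) c) :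
    HasMargin A N (1 / (3 * 2 ^ c)) := by
  obtain ⟨M, hM, hM1, hM2⟩ := h.rc
  have hK : (0 : ℝ) < 3 / 2 * 2 ^ c := by positivity
  have hK1 : (1 : ℝ) ≤ 3 / 2 * 2 ^ c := by
    have : (1 : ℝ) ≤ 2 ^ c := one_le_pow₀ (by norm_num)
    linarith
  obtain ⟨ι, hι, u, v, hu, hv, huv⟩ := vectors _ hK M hM
  refine ⟨EuclideanSpace ℝ ι, inferInstance, inferInstance, u, v, 1 / (3 / 2 * 2 ^ c),
    1 / 2 / (3 / 2 * 2 ^ c), ?_, ?_, ?_, hu, hv, ?_, ?_⟩
  · have : (0 : ℝ) ≤ 1 / 2 / (3 / 2 * 2 ^ c) := by positivity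
    linarith
  · refine le_of_eq ?_
    field_simp
    norm_num
  · rw [div_le_one hK]
    exact hK1
  · intro x y hne hxy
    rw [huv]
    exact div_le_div_of_nonneg_right (hM1 x y ⟨hne, hxy⟩) hK.le
  · intro x y hne hxy
    rw [huv]
    exact div_le_div_of_nonneg_right (hM2 x y hne (fun h => hxy h.2)) hK.le

theorem margin_bound (R : ℕ) : ∃ C : ℝ, 0 < C ∧ ∀ A : Set ℕ, (∀ n, rep A n ≤ R) →
    ∀ (N : ℕ) (ε : ℝ), 0 < ε → HasMargin A N ε →
      ((A ∩ Set.Icc 1 N).ncard : ℝ) * Real.log N ^ (1 / 5 : ℝ) ≤ C * Real.sqrt N / ε := by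
  obtain ⟨C, hC0, hC⟩ := finite (R + 1) (by omega)
  refine ⟨C ^ (1 / 5 : ℝ) + 1, by positivity, ?_⟩
  intro A hrep N ε hε h
  obtain ⟨H, _, _, u, v, a, b, hb, hab, ha, hu, hv, h1, h2⟩ := h
  have h3 := hC A (fun n => (hrep n).trans (by omega)) N H u v a b hb (by linarith) ha hu hv h1 h2
  obtain ⟨D, hD⟩ : ∃ D : ℝ, D = (A ∩ Set.Icc 1 N).ncard := ⟨_, rfl⟩
  have hD0 : 0 ≤ D := by rw [hD]; positivity
  rw [← hD] at h3 ⊢
  rcases Nat.eq_zero_or_pos N with hN | hN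
  · subst hN
    have e1 : Real.log ((0 : ℕ) : ℝ) ^ (1 / 5 : ℝ) = 0 := by
      rw [Nat.cast_zero, Real.log_zero]
      exact Real.zero_rpow (by norm_num)
    rw [e1, mul_zero]
    positivity
  have hN1 : (1 : ℝ) ≤ N := by exact_mod_cast hN
  have hL : 0 ≤ Real.log N := Real.log_nonneg hN1
  have hs0 : 0 < Real.sqrt N := Real.sqrt_pos.2 (by linarith)
  have h4 : (ε * (D / Real.sqrt N)) ^ 5 * Real.log N ≤ C := by
    refine le_trans ?_ h3
    refine mul_le_mul_of_nonneg_right ?_ hL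
    refine pow_le_pow_left₀ (by positivity) ?_ 5
    exact mul_le_mul_of_nonneg_right (by linarith) (by positivity)
  have h5 : ε * (D / Real.sqrt N) * Real.log N ^ (1 / 5 : ℝ) ≤ C ^ (1 / 5 : ℝ) := by
    have e1 := Real.rpow_le_rpow (by positivity) h4 (by norm_num : (0 : ℝ) ≤ 1 / 5)
    rw [Real.mul_rpow (by positivity) hL] at e1
    have e2 : ((ε * (D / Real.sqrt N)) ^ 5) ^ (1 / 5 : ℝ) = ε * (D / Real.sqrt N) := by
      rw [← Real.rpow_natCast, ← Real.rpow_mul (by positivity)]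
      norm_num
    rw [e2] at e1
    exact e1
  rw [le_div_iff₀ hε]
  calc D * Real.log N ^ (1 / 5 : ℝ) * ε
      = ε * (D / Real.sqrt N) * Real.log N ^ (1 / 5 : ℝ) * Real.sqrt N := by field_simp
    _ ≤ C ^ (1 / 5 : ℝ) * Real.sqrt N := mul_le_mul_of_nonneg_right h5 hs0.le
    _ ≤ (C ^ (1 / 5 : ℝ) + 1) * Real.sqrt N :=
        mul_le_mul_of_nonneg_right (by linarith) hs0.le

/-- `|A ∩ {1, ..., N}| ≫ N ^ (1 / 2) / g(N)`. -/
def Dense (g : ℕ → ℝ) (A : Set ℕ) : Prop :=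
  ∃ C : ℝ, 0 < C ∧ ∀ᶠ N : ℕ in atTop,
    (N : ℝ) ^ (1 / 2 : ℝ) / g N ≤ C * (A ∩ Set.Icc 1 N).ncard

theorem threshold (g ε : ℕ → ℝ) (hg : ∀ᶠ N : ℕ in atTop, 0 < g N)
    (hε : ∀ᶠ N : ℕ in atTop, 0 < ε N)
    (hlim : Tendsto (fun N : ℕ => g N / (ε N * Real.log N ^ (1 / 5 : ℝ))) atTop (nhds 0))
    (A : Set ℕ) (hA : Dense g A) (hm : ∃ᶠ N : ℕ in atTop, HasMargin A N (ε N)) (K : ℕ) :
    ∃ n, K < rep A n := by
  by_contra hcon
  push Not at hcon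
  obtain ⟨C, hC0, hC⟩ := margin_bound K
  obtain ⟨c, hc0, hc⟩ := hA
  have hsmall : ∀ᶠ N : ℕ in atTop, g N / (ε N * Real.log N ^ (1 / 5 : ℝ)) < 1 / (C * c) :=
    hlim.eventually (gt_mem_nhds (by positivity))
  obtain ⟨N, hN, h1, h2, h3, h4, h5⟩ := (hm.and_eventually
    (hg.and (hε.and (hc.and (hsmall.and (eventually_ge_atTop 2)))))).exists
  have hb := hC A hcon N (ε N) h2 hN
  obtain ⟨D, hD⟩ : ∃ D : ℝ, D = (A ∩ Set.Icc 1 N).ncard := ⟨_, rfl⟩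
  rw [← hD] at hb h3
  have hN2 : (2 : ℝ) ≤ N := by exact_mod_cast h5
  have hL : 0 < Real.log N := Real.log_pos (by linarith)
  have hL5 : 0 < Real.log N ^ (1 / 5 : ℝ) := Real.rpow_pos_of_pos hL _
  have hs0 : 0 < Real.sqrt N := Real.sqrt_pos.2 (by linarith)
  rw [← Real.sqrt_eq_rpow, div_le_iff₀ h1] at h3
  rw [div_lt_iff₀ (by positivity)] at h4
  rw [le_div_iff₀ h2] at hb
  -- `√N L ε ≤ c D g L ε ≤ c g C √N`
  have e1 : Real.sqrt N * (Real.log N ^ (1 / 5 : ℝ) * ε N) ≤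
      c * D * g N * (Real.log N ^ (1 / 5 : ℝ) * ε N) :=
    mul_le_mul_of_nonneg_right h3 (by positivity)
  have e2 : c * g N * (D * Real.log N ^ (1 / 5 : ℝ) * ε N) ≤ c * g N * (C * Real.sqrt N) :=
    mul_le_mul_of_nonneg_left hb (by positivity)
  have e3 : Real.log N ^ (1 / 5 : ℝ) * ε N * Real.sqrt N ≤ (c * C * g N) * Real.sqrt N := by
    linarith
  have e4 := le_of_mul_le_mul_right e3 hs0
  have e5 : c * C * g N < c * C * (1 / (C * c) * (ε N * Real.log N ^ (1 / 5 : ℝ))) :=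
    mul_lt_mul_of_pos_left h4 (by positivity)
  have e6 : c * C * (1 / (C * c) * (ε N * Real.log N ^ (1 / 5 : ℝ))) =
      Real.log N ^ (1 / 5 : ℝ) * ε N := by
    field_simp
  linarith

end Pool.Agent.N472.SM
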