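import Pool.Agent.N472.SM.Count
import Pool.Agent.N472.MC.Core
import Pool.Agent.N472.MC.Num

set_option autoImplicit false

/-!
# One scale
-/

namespace Pool.Agent.N472.SM

open Finset Pool.Agent.N472.MC

theorem scale (R : ℕ) (hR1 : 1 ≤ R) : ∃ C : ℝ, 0 ≤ C ∧ ∀ (A : Set ℕ), (∀ n, rep A n ≤ R) →
    ∀ (N : ℕ) (H : Type) [NormedAddCommGroup H] [InnerProductSpace ℝ H] (p q : Fin N → H)
      (a b : ℝ), -1 ≤ b → b < a → a ≤ 1 → (∀ x, ‖p x‖ ≤ 1) → (∀ x, ‖q x‖ ≤ 1) →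
      (∀ x y : Fin N, x ≠ y → (x : ℕ) + y ∈ A → a ≤ inner ℝ (p x) (q y)) →
      (∀ x y : Fin N, x ≠ y → (x : ℕ) + y ∉ A → inner ℝ (p x) (q y) ≤ b) →
      ((a - b) * (((F A N).filter ((N + 1) / 2 ≤ ·)).card / Real.sqrt N)) ^ 5 *
        Real.log N ≤ C := by
  classical
  have hR0 : (0 : ℝ) < R := by exact_mod_cast hR1
  have hR1' : (1 : ℝ) ≤ R := by exact_mod_cast hR1
  obtain ⟨w, hw⟩ : ∃ w, w = Real.sqrt (2 * R) := ⟨_, rfl⟩
  have hw0 : 0 < w := by rw [hw]; positivity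
  have hw2 : w ^ 2 = 2 * R := by rw [hw]; exact Real.sq_sqrt (by positivity)
  obtain ⟨C₁, hC₁⟩ : ∃ C₁ : ℝ, C₁ = 2 * (2 ^ (2 * 2 + 1) *
      |Real.log (16 * (2 * Real.sqrt R) ^ 2 / (w / 2))| +
      2 ^ (2 * 2) + 14 * 331776 + 6 * 331776 * |Real.log 331776| + 6 * (2 : ℕ) * 331776) := ⟨_, rfl⟩
  have hC₁0 : 0 ≤ C₁ := by rw [hC₁]; positivity
  refine ⟨w ^ 5 * C₁, by positivity, ?_⟩
  intro A hrep N H _ _ p q a b hb hab ha hp hq hpos hneg
  obtain ⟨G, hG⟩ : ∃ G, G = ((F A N).filter ((N + 1) / 2 ≤ ·)).card := ⟨_, rfl⟩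
  rw [← hG]
  rcases Nat.eq_zero_or_pos G with hG0 | hG0
  · rw [hG0]
    have : ((a - b) * (((0 : ℕ) : ℝ) / Real.sqrt N)) ^ 5 * Real.log N = 0 := by
      norm_num
    rw [this]
    positivity
  have hN1 : 1 ≤ N := by
    rcases Nat.eq_zero_or_pos N with h | h
    · subst h
      have : ((F A 0).filter ((0 + 1) / 2 ≤ ·)).card = 0 := by
        rw [card_eq_zero, eq_empty_iff_forall_notMem]
        intro z hz
        have := (mem_F.1 (mem_filter.1 hz).1).1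
        omega
      omega
    · exact h
  have hN1' : (1 : ℝ) ≤ N := by exact_mod_cast hN1
  have hN0 : (0 : ℝ) < N := by linarith
  have hG0' : (0 : ℝ) < G := by exact_mod_cast hG0
  obtain ⟨s, hs⟩ : ∃ s, s = Real.sqrt N := ⟨_, rfl⟩
  have hs2 : s ^ 2 = N := by rw [hs]; exact Real.sq_sqrt hN0.le
  have hs0 : 0 < s := by rw [hs]; exact Real.sqrt_pos.2 hN0
  rw [← hs]
  -- the size of G
  have hGle : (G : ℝ) ≤ w * s := by
    have h1 : G ^ 2 ≤ R * (2 * N) := by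
      refine le_trans ?_ (F_sq A R hrep N)
      rw [hG]
      exact Nat.pow_le_pow_left (card_filter_le _ _) 2
    have h2 : (G : ℝ) ^ 2 ≤ (w * s) ^ 2 := by
      rw [mul_pow, hw2, hs2]
      have : ((G ^ 2 : ℕ) : ℝ) ≤ ((R * (2 * N) : ℕ) : ℝ) := by exact_mod_cast h1
      push_cast at this
      linarith
    exact le_of_pow_le_pow_left₀ (n := 2) (by norm_num) (by positivity) h2
  obtain ⟨ε, hε⟩ : ∃ ε, ε = a - b := ⟨_, rfl⟩
  rw [← hε]
  have hε0 : 0 < ε := by rw [hε]; linarith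
  have hε2 : ε ≤ 2 := by rw [hε]; linarith
  obtain ⟨η, hη⟩ : ∃ η, η = ε * (G / s) / w := ⟨_, rfl⟩
  have hη0 : 0 < η := by rw [hη]; positivity
  have hη2 : η ≤ 2 := by
    rw [hη, div_le_iff₀ hw0]
    have h1 : G / s ≤ w := by rw [div_le_iff₀ hs0]; exact hGle
    exact mul_le_mul hε2 h1 (by positivity) (by norm_num)
  have hprod : ε * (G / s) = w * η := by rw [hη]; field_simp
  rw [hprod]
  -- the parameters
  obtain ⟨S, hS⟩ : ∃ S : ℝ, S = 331776 / η ^ (2 * 2) := ⟨_, rfl⟩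
  have hη4 : 0 < η ^ (2 * 2) := by positivity
  have hS1 : 1 ≤ S := by
    rw [hS, le_div_iff₀ hη4]
    have : η ^ (2 * 2) ≤ 2 ^ (2 * 2) := pow_le_pow_left₀ hη0.le hη2 _
    norm_num at this ⊢
    linarith
  obtain ⟨τ, hτ⟩ : ∃ τ, τ = w * η * s / 24 := ⟨_, rfl⟩
  have hτ0 : 0 < τ := by rw [hτ]; positivity
  obtain ⟨Δ, hΔ⟩ : ∃ Δ, Δ = 2 * Real.sqrt R * s := ⟨_, rfl⟩
  have hΔ2 : Δ ^ 2 = 4 * R * N := by
    rw [hΔ, mul_pow, mul_pow, Real.sq_sqrt hR0.le, hs2]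
    ring
  have hΔ0 : 0 ≤ Δ := by rw [hΔ]; positivity
  have hΔ1 : 1 ≤ Δ := by
    have : (1 : ℝ) ^ 2 ≤ Δ ^ 2 := by rw [hΔ2]; nlinarith
    exact le_of_pow_le_pow_left₀ (n := 2) (by norm_num) hΔ0 this
  have hD : ((F A (2 * N)).card : ℝ) ^ 2 ≤ 4 * R * N := by
    have h1 := F_sq A R hrep (2 * N)
    have : (((F A (2 * N)).card ^ 2 : ℕ) : ℝ) ≤ ((R * (2 * (2 * N)) : ℕ) : ℝ) := by exact_mod_cast h1
    push_cast at this
    linarith
  have hDΔ : ((F A (2 * N)).card : ℝ) ≤ Δ :=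
    le_of_pow_le_pow_left₀ (n := 2) (by norm_num) hΔ0 (by rw [hΔ2]; exact hD)
  have hcore := core (B A N) (B_01 A N) (B_symm A N) Δ (fun x => (B_row A N x).trans hDΔ) hΔ1 univ
    (fun _ _ _ => mem_univ _) p q hp hq a b hb
    (fun x y h => hpos x y (B_ne h).1 (B_ne h).2)
    (fun x _ y _ hne h => hneg x y hne (fun hm => by
      unfold B at h
      rw [if_pos ⟨hne, hm⟩] at h
      exact one_ne_zero h)) 2 (by norm_num) S τ N hS1 hτ0 (by simp) hN0 (fun x => by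
      have h1 := B_four A R hrep N x
      have h2 : S * τ ^ (2 * 2) / N = 4 * R ^ 2 * N := by
        have h3 : w ^ 4 = 4 * R ^ 2 := by
          have : w ^ 4 = (w ^ 2) ^ 2 := by ring
          rw [this, hw2]
          ring
        have h4 : s ^ 4 = N ^ 2 := by
          have : s ^ 4 = (s ^ 2) ^ 2 := by ring
          rw [this, hs2]
        rw [hS, hτ]
        norm_num
        rw [div_pow, mul_pow, mul_pow, h3, h4]
        field_simp
        ring
      show (B A N ^ (2 * 2)) x x ≤ _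
      rw [h2]
      calc (B A N ^ 4) x x ≤ R * ((F A (2 * N)).card : ℝ) ^ 2 := h1
        _ ≤ R * (4 * R * N) := mul_le_mul_of_nonneg_left hD hR0.le
        _ = _ := by ring)
  have hmass := B_mass A N ((N + 1) / 2)
  rw [← hG] at hmass
  have hmass2 : (N : ℝ) / 2 * G ≤ ∑ x, ∑ y, B A N x y := by
    refine le_trans ?_ hmass
    refine mul_le_mul_of_nonneg_right ?_ hG0'.le
    have h1 : N ≤ 2 * ((N + 1) / 2) := by omega
    have h2 : (N : ℝ) ≤ 2 * (((N + 1) / 2 : ℕ) : ℝ) := by exact_mod_cast h1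
    linarith
  rw [← hε, hΔ2] at hcore
  have hGs : (G : ℝ) * ε = w * η * s := by
    rw [← hprod]
    field_simp
  have hkey : w / 2 * η * N * s / 2 ≤ 8 * (7 * S ^ 3) ^ S * (4 * R * N) := by
    have h1 := mul_le_mul_of_nonneg_left hmass2 hε0.le
    have h2 : ε * ((N : ℝ) / 2 * G) = w * η * s * N / 2 := by
      rw [← hGs]
      ring
    have h3 : 6 * τ * N = w * η * s * N / 4 := by
      rw [hτ]
      ring
    rw [h2] at h1
    rw [h3] at hcore
    linarith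
  have hnum := numer 2 le_rfl (w / 2) (2 * Real.sqrt R) 331776 η N s (by positivity) (by positivity)
    (by norm_num) hη0 hη2 hN1' (by rw [hs, Real.sqrt_eq_rpow]; norm_num) (by
      rw [← hS]
      have : (2 * Real.sqrt R * s) ^ 2 = 4 * R * N := by rw [← hΔ]; exact hΔ2
      rw [this]
      exact hkey)
  rw [mul_pow, mul_assoc]
  refine mul_le_mul_of_nonneg_left ?_ (by positivity)
  rw [hC₁]
  exact hnum

end Pool.Agent.N472.SM
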